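import Pool.Agent.Helper29.SH.Goals

/-!
# Project SH (MP_0a002a_al), packet MAX (helper91)
-/

set_option autoImplicit false

namespace Pool.Agent.Helper91.SH

open Subgroup Pool.H83Shunkov Pool.Agent.Helper29.SH

theorem t_MAX : S_MAX := by
  classical
  intro G _ a ha P hP ⟨M₀, hM₀⟩
  by_contra hcon
  push Not at hcon
  have hstep : ∀ M : {M : Subgroup G // P M}, ∃ M' : {M : Subgroup G // P M}, M.1 < M'.1 := by
    rintro ⟨M, hM⟩
    obtain ⟨M', h1, h2, h3⟩ := hcon M hM
    exact ⟨⟨M', h1⟩, lt_of_le_not_ge h2 h3⟩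
  choose f hf using hstep
  let s : ℕ → {M : Subgroup G // P M} := fun n => Nat.rec ⟨M₀, hM₀⟩ (fun _ M => f M) n
  have hs : StrictMono fun n => (s n).1 := strictMono_nat_of_lt_succ fun n => hf (s n)
  have hdir : Directed (· ≤ ·) fun n => (s n).1 := hs.monotone.directed_le
  apply ha
  refine ⟨⨆ n, (s n).1, ?_, ?_, ?_⟩
  · exact (Subgroup.mem_iSup_of_directed hdir).2 ⟨0, (hP _ (s 0).2).1⟩
  · intro hfin
    have hinf : (({t : Set G | t ⊆ ((⨆ n, (s n).1 : Subgroup G) : Set G)})).Infinite := by
      refine Set.infinite_of_injective_forall_mem (f := fun n : ℕ => ((s n).1 : Set G)) ?_ ?_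
      · intro i j hij
        exact hs.injective (SetLike.coe_injective hij)
      · intro n
        exact le_iSup (fun n => (s n).1) n
    exact hinf hfin.finite_subsets
  · intro S hS
    have h1 : ∃ n, (S : Set G) ⊆ ((s n).1 : Set G) := by
      induction S using Finset.induction_on with
      | empty => exact ⟨0, by simp⟩
      | insert x S hx ih =>
        obtain ⟨n, hn⟩ := ih (fun y hy => hS (by simp [Finset.mem_coe.1 hy]))
        obtain ⟨m, hm⟩ := (Subgroup.mem_iSup_of_directed hdir).1 (hS (by simp : x ∈ _))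
        refine ⟨max n m, ?_⟩
        intro y hy
        rw [Finset.coe_insert, Set.mem_insert_iff] at hy
        rcases hy with rfl | hy
        · exact hs.monotone (le_max_right n m) hm
        · exact hs.monotone (le_max_left n m) (hn hy)
    obtain ⟨n, hn⟩ := h1
    exact (hP _ (s n).2).2.subset ((Subgroup.closure_le _).2 hn)

end Pool.Agent.Helper91.SH
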